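import Mathlib

/-!
Oracle machines and the relativised classes, short form.  Languages and oracles are sets of bit
strings, classes are sets of languages.
-/

set_option autoImplicit false

open Polynomial

namespace Pool.ORC

/-- Effect of an action on a stack (the head of the list is the top): keep it, pop, or push `b`. -/
def act (a : Option (Option Bool)) (l : List Bool) : List Bool :=
  a.elim l fun o => o.elim l.tail fun b => b :: l

/-- A machine with states `Fin (n + 1)` and stacks `Fin (k + 1)` is given by its table `tr`: in the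
state `q` it sees one bit `c` (whether the content of stack `0` is in the oracle) and the top symbols
of all stacks, and it halts with an output bit or goes to a new state and acts on each stack.
`Out tr O t q s b`: started in the state `q` with the stacks `s` it halts within `t` steps, with the
output `b`. -/
inductive Out {k n : ℕ} (tr : Fin (n + 1) → Bool → (Fin (k + 1) → Option Bool) →
    Bool ⊕ (Fin (n + 1) × (Fin (k + 1) → Option (Option Bool)))) (O : Set (List Bool)) :
    ℕ → Fin (n + 1) → (Fin (k + 1) → List Bool) → Bool → Prop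
  | halt (t : ℕ) (q : Fin (n + 1)) (s : Fin (k + 1) → List Bool) (b c : Bool) :
      (c = true ↔ s 0 ∈ O) → tr q c (fun i => (s i).head?) = Sum.inl b → Out tr O (t + 1) q s b
  | next (t : ℕ) (q q' : Fin (n + 1)) (s : Fin (k + 1) → List Bool) (b c : Bool)
      (a : Fin (k + 1) → Option (Option Bool)) :
      (c = true ↔ s 0 ∈ O) → tr q c (fun i => (s i).head?) = Sum.inr (q', a) →
      Out tr O t q' (fun i => act (a i) (s i)) b → Out tr O (t + 1) q s b

/-- `P^O`: decided in time `P(|x|)`, `P` a polynomial; start in the state `0` with the input `x` on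
the stack `0`, all other stacks empty. -/
def PT (O : Set (List Bool)) : Set (Set (List Bool)) :=
  {L | ∃ (k n : ℕ) (tr : Fin (n + 1) → Bool → (Fin (k + 1) → Option Bool) →
      Bool ⊕ (Fin (n + 1) × (Fin (k + 1) → Option (Option Bool)))) (P : ℕ[X]),
    ∀ (s : Fin (k + 1) → List Bool) (b : Bool), (∀ i, i ≠ 0 → s i = []) →
      (b = true ↔ s 0 ∈ L) → Out tr O (P.eval (s 0).length) 0 s b}

/-- The pair encoding `1^{|x|} 0 x y`. -/
def pair (x y : List Bool) : List Bool := List.replicate x.length true ++ false :: (x ++ y)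

/-- The languages `{x | (x, w) ∈ R for some w of length q(|x|)}`, `R ∈ C`, `q` a polynomial; so
`NP^O = Ex (PT O)`. -/
def Ex (C : Set (Set (List Bool))) : Set (Set (List Bool)) :=
  {L | ∃ R ∈ C, ∃ q : ℕ[X], ∀ x,
    x ∈ L ↔ ∃ w : List Bool, w.length = q.eval x.length ∧ pair x w ∈ R}

/-- The complements. -/
def co (C : Set (Set (List Bool))) : Set (Set (List Bool)) := {L | Lᶜ ∈ C}

/-- `UP^O`: as `NP^O`, with at most one `w` for every `x`. -/
def UP (O : Set (List Bool)) : Set (Set (List Bool)) :=
  {L | ∃ R ∈ PT O, ∃ q : ℕ[X],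
    (∀ x w w' : List Bool, w.length = q.eval x.length → w'.length = q.eval x.length →
      pair x w ∈ R → pair x w' ∈ R → w = w') ∧
    ∀ x, x ∈ L ↔ ∃ w : List Bool, w.length = q.eval x.length ∧ pair x w ∈ R}

/-- `Σ_k^{p,O}`. -/
def Sig (O : Set (List Bool)) (k : ℕ) : Set (Set (List Bool)) := (fun C => Ex (co C))^[k] (PT O)

/-- `C/(f(n) + O(1))`. -/
def AdvL (f : ℕ → ℕ) (C : Set (Set (List Bool))) : Set (Set (List Bool)) :=
  {L | ∃ A ∈ C, ∃ (c : ℕ) (adv : ℕ → List Bool), (∀ n, (adv n).length ≤ f n + c) ∧
    ∀ x, x ∈ L ↔ pair x (adv x.length) ∈ A}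

/-- `C/poly`. -/
def Adv (C : Set (Set (List Bool))) : Set (Set (List Bool)) :=
  {L | ∃ q : ℕ[X], L ∈ AdvL (fun n => q.eval n) C}

/-- Symmetric alternation with certificates of length `ℓ(p(|x|))`, `p` a polynomial, and a referee
in `P^O`; `S2 id O = S_2^{p,O}`. -/
def S2 (ℓ : ℕ → ℕ) (O : Set (List Bool)) : Set (Set (List Bool)) :=
  {L | ∃ R ∈ PT O, ∃ p : ℕ[X], ∀ x : List Bool,
    (x ∈ L → ∃ y : List Bool, y.length = ℓ (p.eval x.length) ∧
      ∀ z : List Bool, z.length = ℓ (p.eval x.length) → pair x (pair y z) ∈ R) ∧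
    (x ∉ L → ∃ z : List Bool, z.length = ℓ (p.eval x.length) ∧
      ∀ y : List Bool, y.length = ℓ (p.eval x.length) → pair x (pair y z) ∉ R)}

end Pool.ORC
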