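import Pool.Agent.H16.ORC.Defs
import Pool.Agent.H16.ORB.Defs
import Pool.Agent.H16.ORS.Defs
import Pool.Agent.H16.ORS.All

/-!
The short form of the definitions agrees with that of `Pool.ORB`; the theorem.
-/

set_option autoImplicit false

open Polynomial

namespace Pool.ORC

/-- Actions. -/
def toAct (a : Option (Option Bool)) : ORB.Act :=
  a.elim ORB.Act.keep fun o => o.elim ORB.Act.pop fun b => ORB.Act.push b

theorem toAct_ap (a : Option (Option Bool)) (l : List Bool) : (toAct a).ap l = act a l := by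
  rcases a with _ | _ | b <;> rfl

/-- Actions. -/
def ofAct : ORB.Act → Option (Option Bool)
  | ORB.Act.keep => none
  | ORB.Act.pop => some none
  | ORB.Act.push b => some (some b)

theorem ofAct_act (a : ORB.Act) (l : List Bool) : act (ofAct a) l = a.ap l := by
  cases a <;> rfl

section
variable {k n : ℕ} (tr : Fin (n + 1) → Bool → (Fin (k + 1) → Option Bool) →
    Bool ⊕ (Fin (n + 1) × (Fin (k + 1) → Option (Option Bool)))) (O : Set (List Bool))

/-- The machine of a table. -/
def mach : ORB.OM where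
  k := k
  n := n
  ask := fun _ => true
  tr := fun q c h => Sum.map id (fun r => (r.1, fun i => toAct (r.2 i))) (tr q c h)

theorem run_of_out {t : ℕ} {q : Fin (n + 1)} {s : Fin (k + 1) → List Bool} {b : Bool}
    (h : Out tr O t q s b) : (mach tr).run O t (q, s) = some b := by
  classical
  induction h with
  | halt t q s b c hc ht =>
    have hc' : decide (s 0 ∈ O) = c := by
      cases c
      · simpa using hc
      · simpa using hc
    have h1 : (mach tr).step O (q, s) = Sum.inl b := by
      unfold ORB.OM.step mach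
      simp only [Bool.true_and]
      rw [show (@decide (s 0 ∈ O) (Classical.propDecidable _)) = c by rw [← hc']]
      rw [ht]
      rfl
    rw [ORB.OM.run, h1]
  | next t q q' s b c a hc ht _ ih =>
    have hc' : decide (s 0 ∈ O) = c := by
      cases c
      · simpa using hc
      · simpa using hc
    have h1 : (mach tr).step O (q, s) = Sum.inr (q', fun i => act (a i) (s i)) := by
      unfold ORB.OM.step mach
      simp only [Bool.true_and]
      rw [show (@decide (s 0 ∈ O) (Classical.propDecidable _)) = c by rw [← hc']]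
      rw [ht]
      simp only [Sum.map_inr, toAct_ap]
    rw [ORB.OM.run, h1]
    exact ih

end

/-- The table of a machine. -/
def tab (M : ORB.OM) : Fin (M.n + 1) → Bool → (Fin (M.k + 1) → Option Bool) →
    Bool ⊕ (Fin (M.n + 1) × (Fin (M.k + 1) → Option (Option Bool))) :=
  fun q c h => Sum.map id (fun r => (r.1, fun i => ofAct (r.2 i))) (M.tr q (M.ask q && c) h)

theorem out_of_run (M : ORB.OM) (O : Set (List Bool)) : ∀ (t : ℕ) (q : Fin (M.n + 1))
    (s : Fin (M.k + 1) → List Bool) (b : Bool), M.run O t (q, s) = some b →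
    Out (tab M) O t q s b := by
  classical
  intro t
  induction t with
  | zero => intro q s b h; cases h
  | succ t ih =>
    intro q s b h
    have h' : (match M.step O (q, s) with
      | Sum.inl b => some b
      | Sum.inr c' => M.run O t c') = some b := h
    have hs : M.step O (q, s) = Sum.map id (fun r => (r.1, fun i => (r.2 i).ap (s i)))
        (M.tr q (M.ask q && @decide (s 0 ∈ O) (Classical.propDecidable _))
          (fun i => (s i).head?)) := by
      unfold ORB.OM.step
      rcases M.tr q (M.ask q && @decide (s 0 ∈ O) (Classical.propDecidable _))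
          (fun i => (s i).head?) with b | ⟨q', a⟩ <;> rfl
    rcases hr : M.tr q (M.ask q && @decide (s 0 ∈ O) (Classical.propDecidable _))
          (fun i => (s i).head?) with b' | ⟨q', a⟩
    · rw [hs, hr] at h'
      have hb : b' = b := by simpa using h'
      refine Out.halt t q s b (@decide (s 0 ∈ O) (Classical.propDecidable _)) (by simp) ?_
      unfold tab
      rw [hr, hb]
      rfl
    · rw [hs, hr] at h'
      refine Out.next t q q' s b (@decide (s 0 ∈ O) (Classical.propDecidable _))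
        (fun i => ofAct (a i)) (by simp) ?_ ?_
      · unfold tab
        rw [hr]
        rfl
      · simp only [ofAct_act]
        exact ih _ _ _ h'

theorem PT_eq (O : Set (List Bool)) : PT O = ORB.PT O := by
  classical
  ext L
  constructor
  · rintro ⟨k, n, tr, P, h⟩
    refine ⟨mach tr, P, fun x => ?_⟩
    have h1 := h (fun i => if i = 0 then x else []) (@decide (x ∈ L) (Classical.propDecidable _))
      (fun i hi => if_neg hi) (by simp)
    have h2 := run_of_out tr O h1
    simp only [if_true] at h2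
    exact h2
  · rintro ⟨M, P, h⟩
    refine ⟨M.k, M.n, tab M, P, fun s b hs hb => ?_⟩
    have h1 := h (s 0)
    have h2 : M.init (s 0) = (0, s) := by
      unfold ORB.OM.init
      congr 1
      funext i
      by_cases hi : i = 0
      · subst hi; simp
      · rw [if_neg hi, hs i hi]
    rw [h2] at h1
    have h3 : (@decide (s 0 ∈ L) (Classical.propDecidable _)) = b := by
      cases b
      · simpa using hb
      · simpa using hb
    rw [h3] at h1
    exact out_of_run M O _ _ _ _ h1

theorem Ex_eq (O : Set (List Bool)) : Ex (PT O) = ORB.NP O := by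
  rw [PT_eq]; rfl

theorem co_Ex_eq (O : Set (List Bool)) : co (Ex (PT O)) = ORB.coNP O := by
  rw [Ex_eq]; rfl

theorem UP_eq (O : Set (List Bool)) : UP O = ORB.UP O := by
  unfold UP
  rw [PT_eq]; rfl

theorem co_UP_eq (O : Set (List Bool)) : co (UP O) = ORB.coUP O := by
  rw [UP_eq]; rfl

theorem Sig_eq (O : Set (List Bool)) (k : ℕ) : Sig O k = ORB.Sig O k := by
  induction k with
  | zero => exact PT_eq O
  | succ k ih =>
    have h1 : Sig O (k + 1) = Ex (co (Sig O k)) := by
      unfold Sig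
      rw [Function.iterate_succ_apply']
    rw [h1, ih]
    rfl

theorem S2_eq (ℓ : ℕ → ℕ) (O : Set (List Bool)) : S2 ℓ O = ORB.S2L ℓ O := by
  unfold S2
  rw [PT_eq]; rfl

theorem AdvL_eq (f : ℕ → ℕ) (C : Set (Set (List Bool))) : AdvL f C = ORB.AdvL f C := rfl

theorem Adv_sub (C : Set (Set (List Bool))) : ORB.Adv C ⊆ Adv C := by
  rintro L ⟨A, hA, q, adv, h1, h2⟩
  exact ⟨q, A, hA, 0, adv, fun n => by simpa using h1 n, h2⟩

theorem up_sub_np (O : Set (List Bool)) : ORB.UP O ∩ ORB.coUP O ⊆ ORB.NP O ∩ ORB.coNP O := by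
  rintro A ⟨⟨R, hR, q, -, h⟩, ⟨R', hR', q', -, h'⟩⟩
  exact ⟨⟨R, hR, q, h⟩, ⟨R', hR', q', h'⟩⟩

theorem advL_mono {f g : ℕ → ℕ} (h : ∀ n, f n ≤ g n) (C : Set (Set (List Bool))) :
    AdvL f C ⊆ AdvL g C := by
  rintro L ⟨A, hA, c, adv, h1, h2⟩
  exact ⟨A, hA, c, adv, fun n => (h1 n).trans (Nat.add_le_add_right (h n) c), h2⟩

theorem advL_sub_adv {f : ℕ → ℕ} (h : ∀ n, f n ≤ n) {C D : Set (Set (List Bool))} (hCD : C ⊆ D) :
    AdvL f C ⊆ Adv D := by
  rintro L ⟨A, hA, c, adv, h1, h2⟩
  refine ⟨X, A, hCD hA, c, adv, fun n => ?_, h2⟩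
  have := h1 n
  have := h n
  simp
  omega

theorem main : ∀ f ℓ : ℕ → ℕ, Monotone ℓ → (∀ n, n ≤ ℓ n) →
    (∀ C : ℕ, ∃ N : ℕ, ∀ n ≥ N, C * Nat.log 2 (ℓ (n ^ C)) ≤ f n ∧
      C * Nat.log 2 (ℓ (n ^ C)) ≤ n) →
    ∃ O : Set (List Bool),
      Ex (PT O) ⊆ AdvL f (UP O ∩ co (UP O)) ∧ Ex (PT O) ⊆ Adv (Ex (PT O) ∩ co (Ex (PT O))) ∧
        ¬ (Sig O 2 ⊆ S2 ℓ O) ∧ ¬ (Sig O 2 ⊆ S2 id O) ∧ (⋃ k, Sig O k) ≠ S2 id O := by
  intro f ℓ hm hl h
  obtain ⟨O, h1, h2, h3, h4⟩ := Pool.ORS.all_short (fun n => min (f n) n) ℓ hm hl (by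
    intro C
    obtain ⟨N, hN⟩ := h C
    exact ⟨N, fun n hn => ⟨le_min (hN n hn).1 (hN n hn).2, (hN n hn).2⟩⟩)
  refine ⟨O, ?_, ?_, ?_, ?_, ?_⟩
  · rw [Ex_eq, UP_eq, show co (ORB.UP O) = ORB.coUP O from rfl]
    exact h1.trans (advL_mono (fun n => min_le_left _ _) _)
  · rw [Ex_eq, show co (ORB.NP O) = ORB.coNP O from rfl]
    exact h1.trans (advL_sub_adv (fun n => min_le_right _ _) (up_sub_np O))
  · rw [Sig_eq, S2_eq]
    exact h2
  · rw [Sig_eq, S2_eq, ORB.S2L_id]
    exact h3
  · rw [S2_eq, ORB.S2L_id, show (⋃ k, Sig O k) = ORB.PH O by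
      unfold ORB.PH
      exact Set.iUnion_congr fun k => Sig_eq O k]
    exact h4

end Pool.ORC
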